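import Pool.Agent.H586.AF.C

/-! # Project AF, task L2: assembly of the logarithm (helper179) -/

set_option autoImplicit false

open MeasureTheory Matrix Finset Filter Topology

namespace Pool.Agent.H179.AF

open Pool.Agent.H586.AF

theorem arith (x1 x2 x3 x4 x5 y1 y2 z w KI KK KJ M : ℝ) (r1 : |x1 - w / 24| ≤ KI * M)
    (r2 : |x2 - w / 24| ≤ KI * M) (r3 : |x3 - w / 24| ≤ KI * M) (r4 : |x4 - w / 24| ≤ KI * M)
    (r5 : |x5 - w / 24| ≤ KI * M) (k1 : |y1| ≤ KK * M) (k2 : |y2| ≤ KK * M)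
    (bu : |z - 2 * w| ≤ KJ * M) :
    |x1 + x2 + x3 + x4 - 2 * x5 - (1 / 2) * y1 - (1 / 2) * y2 - (1 / 2) * z + 11 * w / 12| ≤
      (6 * KI + KK + KJ / 2) * M := by
  rw [abs_le] at *
  constructor <;> linarith [r1.1, r1.2, r2.1, r2.2, r3.1, r3.2, r4.1, r4.2, r5.1, r5.2, k1.1, k1.2,
    k2.1, k2.2, bu.1, bu.2]

theorem tl2 (hI : S_I) (hJ : S_J) (hK : S_K) (hA : S_A) (hB : S_B) (hC : S_C) (hN : S_N)
    (hCT : S_CT) : S_L2 := by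
  obtain ⟨CA, hCA, hA⟩ := hA
  obtain ⟨CB, hCB, hB⟩ := hB
  obtain ⟨CC, hCC, hC⟩ := hC
  obtain ⟨CN, hCN, hN⟩ := hN
  obtain ⟨C0, hC0e⟩ : ∃ C0, C0 = CA + CB + CC + CN := ⟨_, rfl⟩
  have hC0 : 1 ≤ C0 := by linarith
  have lA : CA ≤ C0 := by linarith
  have lB : CB ≤ C0 := by linarith
  have lC : CC ≤ C0 := by linarith
  have lN : CN ≤ C0 := by linarith
  obtain ⟨KI, hI⟩ := hI C0 hC0
  obtain ⟨KJ, hJ⟩ := hJ C0 hC0
  obtain ⟨KK, hK⟩ := hK C0 hC0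
  refine ⟨6 * KI + KK + KJ / 2, fun L hL => ?_⟩
  have hL0 : (0 : ℝ) < L := by
    have : 0 < L := by omega
    exact_mod_cast this
  -- traces
  have cDD : Continuous (cc (lDD L)) := (hCT (lDD L)).1
  have cNN : Continuous (cc (lNN L)) := (hCT (lNN L)).1
  have cDN : Continuous (cc (lDN L)) := (hCT (lDN L)).1
  have cND : Continuous (cc (lND L)) := (hCT (lND L)).1
  have bDD : ∀ t, 0 ≤ t → |cc (lDD L) t - L * hh t| ≤ C0 := fun t ht =>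
    ((hC L hL t ht).1.2).trans lC
  have bNN : ∀ t, 0 ≤ t → |cc (lNN L) t - L * hh t| ≤ C0 := fun t ht =>
    ((hC L hL t ht).2.1.2).trans lC
  have bDN : ∀ t, 0 ≤ t → |cc (lDN L) t - L * hh t| ≤ C0 := fun t ht =>
    ((hC L hL t ht).2.2.1.2).trans lC
  have bND : ∀ t, 0 ≤ t → |cc (lND L) t - L * hh t| ≤ C0 := fun t ht =>
    ((hC L hL t ht).2.2.2.1.2).trans lC
  have tpos : ∀ t : ℝ, (L : ℝ) ^ 2 ≤ t → 0 ≤ t := fun t ht => le_trans (by positivity) ht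
  have uDD : ∀ t, (L : ℝ) ^ 2 ≤ t → |cc (lDD L) t| ≤ C0 := fun t ht => by
    have h := hC L hL t (tpos t ht)
    rw [abs_of_nonneg h.1.1]
    exact (h.2.2.2.2 ht).1.trans lC
  have uNN : ∀ t, (L : ℝ) ^ 2 ≤ t → |cc (lNN L) t| ≤ C0 := fun t ht => by
    have h := hC L hL t (tpos t ht)
    rw [abs_of_nonneg h.2.1.1]
    exact (h.2.2.2.2 ht).2.1.trans lC
  have uDN : ∀ t, (L : ℝ) ^ 2 ≤ t →
      |cc (lDN L) t| ≤ C0 * Real.exp (-(t / (2 * (L : ℝ) ^ 2))) := fun t ht => by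
    have h := hC L hL t (tpos t ht)
    rw [abs_of_nonneg h.2.2.1.1]
    exact (h.2.2.2.2 ht).2.2.1.trans (mul_le_mul_of_nonneg_right lC (Real.exp_pos _).le)
  have uND : ∀ t, (L : ℝ) ^ 2 ≤ t →
      |cc (lND L) t| ≤ C0 * Real.exp (-(t / (2 * (L : ℝ) ^ 2))) := fun t ht => by
    have h := hC L hL t (tpos t ht)
    rw [abs_of_nonneg h.2.2.2.1.1]
    exact (h.2.2.2.2 ht).2.2.2.trans (mul_le_mul_of_nonneg_right lC (Real.exp_pos _).le)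
  have tDDDN : Tr2 C0 L (cc (lDD L)) (cc (lDN L)) := ⟨cDD, cDN, bDD, bDN, uDD, uDN⟩
  have tNNDN : Tr2 C0 L (cc (lNN L)) (cc (lDN L)) := ⟨cNN, cDN, bNN, bDN, uNN, uDN⟩
  have tDDND : Tr2 C0 L (cc (lDD L)) (cc (lND L)) := ⟨cDD, cND, bDD, bND, uDD, uND⟩
  -- the function `aa`
  have aDD : ∀ t s, 0 ≤ t → 0 ≤ s →
      |aa (lDD L) t s - L * (t * s * ww (t + s))| ≤ C0 * Real.sqrt (t * s) := fun t s ht hs =>
    (hA L hL t s ht hs).1.trans (mul_le_mul_of_nonneg_right lA (Real.sqrt_nonneg _))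
  have aNN : ∀ t s, 0 ≤ t → 0 ≤ s →
      |aa (lNN L) t s - L * (t * s * ww (t + s))| ≤ C0 * Real.sqrt (t * s) := fun t s ht hs =>
    (hA L hL t s ht hs).2.1.trans (mul_le_mul_of_nonneg_right lA (Real.sqrt_nonneg _))
  have aDD2 : ∀ t s, 0 ≤ t → 0 ≤ s → (L : ℝ) ^ 2 ≤ t + s →
      |aa (lDD L) t s| ≤ C0 * (L : ℝ) ^ 2 := fun t s ht hs hts => by
    have h := (hA L hL t s ht hs).2.2.1
    rw [abs_of_nonneg h.1]
    refine h.2.trans ?_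
    rw [mul_comm C0]
    exact mul_le_mul_of_nonneg_left ((le_abs_self _).trans (uDD _ hts)) (by positivity)
  have aNN2 : ∀ t s, 0 ≤ t → 0 ≤ s → (L : ℝ) ^ 2 ≤ t + s →
      |aa (lNN L) t s| ≤ C0 * (L : ℝ) ^ 2 := fun t s ht hs hts => by
    have h := (hA L hL t s ht hs).2.2.2
    rw [abs_of_nonneg h.1]
    refine h.2.trans ?_
    rw [mul_comm C0]
    exact mul_le_mul_of_nonneg_left ((le_abs_self _).trans (uNN _ hts)) (by positivity)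
  -- the function `bb`
  have hpos : ∀ t s : ℝ, 0 ≤ (1 / Real.sqrt (1 + t) + 1 / (L : ℝ)) *
      (1 / Real.sqrt (1 + s) + 1 / (L : ℝ)) := fun t s => by positivity
  have bbDD : ∀ t s, 0 ≤ t → 0 ≤ s → |bb (lDD L) t s - L * ww (t + s)| ≤
      C0 * (1 / Real.sqrt (1 + t) + 1 / L) * (1 / Real.sqrt (1 + s) + 1 / L) := fun t s ht hs => by
    refine (hB L hL t s ht hs).1.trans ?_
    rw [mul_assoc, mul_assoc]
    exact mul_le_mul_of_nonneg_right lB (hpos t s)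
  have bbNN : ∀ t s, 0 ≤ t → 0 ≤ s → |bb (lNN L) t s - L * ww (t + s)| ≤
      C0 * (1 / Real.sqrt (1 + t) + 1 / L) * (1 / Real.sqrt (1 + s) + 1 / L) := fun t s ht hs => by
    refine (hB L hL t s ht hs).2.trans ?_
    rw [mul_assoc, mul_assoc]
    exact mul_le_mul_of_nonneg_right lB (hpos t s)
  -- the five magnetic parts
  have r1 : |RI (lNN L) (lDD L) (lDD L) (lDN L) - 1 / (24 * Real.pi ^ 2) *
      ((L : ℝ) ^ 4 * Real.log L)| ≤ KI * (L : ℝ) ^ 4 :=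
    hI L hL (aa (lNN L)) (bb (lDD L)) (cc (lDD L)) (cc (lDN L)) (hCT (lNN L)).2.1
      (hCT (lDD L)).2.2.1 tDDDN aNN aNN2 bbDD
  have r2 : |RI (lDD L) (lNN L) (lDD L) (lDN L) - 1 / (24 * Real.pi ^ 2) *
      ((L : ℝ) ^ 4 * Real.log L)| ≤ KI * (L : ℝ) ^ 4 :=
    hI L hL (aa (lDD L)) (bb (lNN L)) (cc (lDD L)) (cc (lDN L)) (hCT (lDD L)).2.1
      (hCT (lNN L)).2.2.1 tDDDN aDD aDD2 bbNN
  have r3 : |RI (lDD L) (lDD L) (lNN L) (lDN L) - 1 / (24 * Real.pi ^ 2) *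
      ((L : ℝ) ^ 4 * Real.log L)| ≤ KI * (L : ℝ) ^ 4 :=
    hI L hL (aa (lDD L)) (bb (lDD L)) (cc (lNN L)) (cc (lDN L)) (hCT (lDD L)).2.1
      (hCT (lDD L)).2.2.1 tNNDN aDD aDD2 bbDD
  have r4 : |RI (lDD L) (lDD L) (lDD L) (lND L) - 1 / (24 * Real.pi ^ 2) *
      ((L : ℝ) ^ 4 * Real.log L)| ≤ KI * (L : ℝ) ^ 4 :=
    hI L hL (aa (lDD L)) (bb (lDD L)) (cc (lDD L)) (cc (lND L)) (hCT (lDD L)).2.1
      (hCT (lDD L)).2.2.1 tDDND aDD aDD2 bbDD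
  have r5 : |RI (lDD L) (lDD L) (lDD L) (lDN L) - 1 / (24 * Real.pi ^ 2) *
      ((L : ℝ) ^ 4 * Real.log L)| ≤ KI * (L : ℝ) ^ 4 :=
    hI L hL (aa (lDD L)) (bb (lDD L)) (cc (lDD L)) (cc (lDN L)) (hCT (lDD L)).2.1
      (hCT (lDD L)).2.2.1 tDDDN aDD aDD2 bbDD
  -- the traces
  have k1 : |∫ t in Set.Ioi (0 : ℝ), cc (lNN L) t * cc (lDD L) t * cc (lDD L) t * cc (lDN L) t| ≤
      KK * (L : ℝ) ^ 4 :=
    hK L hL (cc (lNN L)) (cc (lDD L)) (cc (lDD L)) (cc (lDN L)) tNNDN tDDDN tDDDN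
  have k2 : |∫ t in Set.Ioi (0 : ℝ), cc (lDD L) t * cc (lNN L) t * cc (lDD L) t * cc (lDN L) t| ≤
      KK * (L : ℝ) ^ 4 :=
    hK L hL (cc (lDD L)) (cc (lNN L)) (cc (lDD L)) (cc (lDN L)) tDDDN tNNDN tDDDN
  -- the spin part
  have nc : Continuous (Function.uncurry (nn L)) := (hCT (lDD L)).2.2.2 L
  obtain ⟨n1, hn1⟩ : ∃ n1 : ℝ → ℝ → ℝ, n1 = nn L := ⟨_, rfl⟩
  have nb : ∀ t s, 0 ≤ t → 0 ≤ s → |n1 t s - L * gg (t + s)| ≤ C0 := fun t s ht hs => by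
    rw [hn1]
    exact (hN L hL t s ht hs).trans lN
  have nb2 : ∀ t s, 0 ≤ t → 0 ≤ s → |n1 s t - L * gg (t + s)| ≤ C0 := fun t s ht hs => by
    rw [add_comm t s]
    exact nb s t hs ht
  rw [← hn1] at nc
  have nc2 : Continuous (Function.uncurry fun t s => n1 s t) := by
    have h := nc.comp continuous_swap
    exact h
  have bu : |BU L - 2 / Real.pi ^ 2 * ((L : ℝ) ^ 4 * Real.log L)| ≤ KJ * (L : ℝ) ^ 4 := by
    have h := hJ L hL n1 (fun t s => n1 s t) (cc (lDD L)) (cc (lDN L)) nc nc2 tDDDN nb nb2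
    rw [hn1] at h
    exact h
  -- conclusion
  obtain ⟨w, hw⟩ : ∃ w, w = 1 / Real.pi ^ 2 * ((L : ℝ) ^ 4 * Real.log L) := ⟨_, rfl⟩
  have e1 : 1 / (24 * Real.pi ^ 2) * ((L : ℝ) ^ 4 * Real.log L) = w / 24 := by
    rw [hw, one_div, mul_inv]
    ring
  have e2 : 2 / Real.pi ^ 2 * ((L : ℝ) ^ 4 * Real.log L) = 2 * w := by
    rw [hw]
    ring
  have e3 : 11 / (12 * Real.pi ^ 2) * ((L : ℝ) ^ 4 * Real.log L) = 11 * w / 12 := by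
    rw [hw, div_eq_mul_inv, mul_inv]
    ring
  rw [e1] at r1 r2 r3 r4 r5
  rw [e2] at bu
  rw [e3]
  exact arith _ _ _ _ _ _ _ _ _ _ _ _ _ r1 r2 r3 r4 r5 k1 k2 bu

end Pool.Agent.H179.AF
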